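import Pool.Agent.X137.WR.Main

/-!
MP_96b1db_co, Q1: connected graphs of arbitrarily large diameter all of whose Wiener roots are
rational. For every D at least 3 there is a connected graph of diameter exactly D whose Wiener
polynomial is a * x * (x + r)^(D-1) with positive integers a, r.
-/

namespace Pool.Agent.Results.MP_96b1db_co.AllDiameters

open Polynomial

/-- The Wiener polynomial: half of the sum of `x ^ dist(u,v)` over all ordered pairs of distinct
vertices, that is, the sum over all unordered pairs of distinct vertices. -/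
noncomputable def wienerPoly {V : Type} [Fintype V] [DecidableEq V] (G : SimpleGraph V) : ℚ[X] :=
  C (1/2) * ∑ p ∈ (Finset.univ : Finset V).offDiag, X ^ G.dist p.1 p.2

/-- For every `D` at least 3 there is a finite connected graph of diameter exactly `D` whose
Wiener polynomial is `a * x * (x + r)^(D-1)` for some positive integers `a, r`; in particular all
its complex roots are rational. -/
theorem result (D : ℕ) (hD : 3 ≤ D) :
    ∃ (V : Type) (_ : Fintype V) (_ : DecidableEq V) (G : SimpleGraph V),
      G.Connected ∧ (∀ u v, G.dist u v ≤ D) ∧ (∃ u v, G.dist u v = D) ∧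
      (∃ a r : ℕ, 0 < a ∧ 0 < r ∧
        wienerPoly G = C (a : ℚ) * (X * (X + C (r : ℚ)) ^ (D - 1))) ∧
      (∀ z : ℂ, aeval z (wienerPoly G) = 0 → ∃ q : ℚ, z = (q : ℂ)) := by
  obtain ⟨V, i1, i2, G, h1, h2, h3, a, r, ha, hr, h4⟩ :=
    Pool.Agent.X137.WR.main (D - 1) (by omega)
  have e : D - 1 + 1 = D := by omega
  rw [e] at h2 h3
  have h5 : wienerPoly G = C (a : ℚ) * (X * (X + C (r : ℚ)) ^ (D - 1)) := h4
  refine ⟨V, i1, i2, G, h1, h2, h3, ⟨a, r, ha, hr, h5⟩, ?_⟩
  intro z hz
  rw [h5] at hz
  simp only [map_mul, map_pow, map_add, aeval_X, aeval_C, map_natCast, mul_eq_zero] at hz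
  rcases hz with hz | hz | hz
  · exact absurd hz (by exact_mod_cast ha.ne')
  · exact ⟨0, by rw [hz]; simp⟩
  · have hz' := pow_eq_zero_iff (by omega : D - 1 ≠ 0) |>.mp hz
    refine ⟨-(r : ℚ), ?_⟩
    push_cast
    linear_combination hz'

end Pool.Agent.Results.MP_96b1db_co.AllDiameters
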